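import Mathlib

set_option autoImplicit false

/-!
PROJECT RQ (MP_c09e94_al), module One: a finite perfect group is the normal closure of one element.
PROOF. Induction on the order; `N` a minimal normal subgroup, `x` generates `G ⧸ N` as a normal subgroup,
`A` the normal closure of `x`.  If `N ≤ A`, done.  Otherwise `A ⊓ N = ⊥`; take `1 ≠ y ∈ N` and the normal
closure `B` of `x * y`.  If `N ≤ B`, done.  Otherwise `B ⊓ N = ⊥`, `x` and `x * y` centralise `N`, so
does `y`, `N` is abelian by minimality, `G ⧸ A` is abelian, `A = ⊤`.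
-/

namespace Pool.Agent.H12.RQ

open scoped commutatorElement

private theorem one_min {G : Type} [Group G] [Finite G] [Nontrivial G] :
    ∃ N : Subgroup G, N.Normal ∧ N ≠ ⊥ ∧ ∀ K : Subgroup G, K.Normal → K ≤ N → K = ⊥ ∨ K = N := by
  have hne : ({K : Subgroup G | K.Normal ∧ K ≠ ⊥} : Set (Subgroup G)).Nonempty :=
    ⟨⊤, inferInstance, top_ne_bot⟩
  have hwf : WellFounded ((· < ·) : Subgroup G → Subgroup G → Prop) := wellFounded_lt
  obtain ⟨N, hN, hmin⟩ := hwf.has_min _ hne
  refine ⟨N, hN.1, hN.2, fun K hK hle => ?_⟩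
  by_cases h : K = ⊥
  · exact Or.inl h
  · right
    by_contra hcon
    exact hmin K ⟨hK, h⟩ (lt_of_le_of_ne hle hcon)

private theorem one_gen {G : Type} [Group G] (N : Subgroup G) [N.Normal] (x : G)
    (hx : Subgroup.normalClosure ({(x : G ⧸ N)} : Set (G ⧸ N)) = ⊤) (g : G) :
    ∃ a ∈ Subgroup.normalClosure ({x} : Set G), ∃ m ∈ N, g = a * m := by
  have hnor : ((Subgroup.normalClosure ({x} : Set G)).map (QuotientGroup.mk' N)).Normal :=
    Subgroup.Normal.map inferInstance _ (QuotientGroup.mk'_surjective N)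
  have hle : Subgroup.normalClosure ({(x : G ⧸ N)} : Set (G ⧸ N)) ≤
      (Subgroup.normalClosure ({x} : Set G)).map (QuotientGroup.mk' N) := by
    apply Subgroup.normalClosure_le_normal
    rw [Set.singleton_subset_iff]
    exact ⟨x, Subgroup.subset_normalClosure (Set.mem_singleton x), rfl⟩
  have hg : (g : G ⧸ N) ∈ (Subgroup.normalClosure ({x} : Set G)).map (QuotientGroup.mk' N) := by
    apply hle
    rw [hx]
    trivial
  obtain ⟨a, ha, hag⟩ := hg
  refine ⟨a, ha, a⁻¹ * g, ?_, (mul_inv_cancel_left a g).symm⟩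
  exact QuotientGroup.eq.mp hag

private theorem one_top {G : Type} [Group G] (N : Subgroup G) [N.Normal] (x : G)
    (hx : Subgroup.normalClosure ({(x : G ⧸ N)} : Set (G ⧸ N)) = ⊤)
    (hle : N ≤ Subgroup.normalClosure ({x} : Set G)) :
    Subgroup.normalClosure ({x} : Set G) = ⊤ := by
  rw [eq_top_iff]
  intro g _
  obtain ⟨a, ha, m, hm, rfl⟩ := one_gen N x hx g
  exact mul_mem ha (hle hm)

private theorem one_comm {G : Type} [Group G] (N : Subgroup G) [N.Normal] (x : G)
    (hmin : ∀ K : Subgroup G, K.Normal → K ≤ N → K = ⊥ ∨ K = N)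
    (hle : ¬ N ≤ Subgroup.normalClosure ({x} : Set G)) (z : G) (hz : z ∈ N) : Commute x z := by
  have h1 : Subgroup.normalClosure ({x} : Set G) ⊓ N = ⊥ := by
    rcases hmin (Subgroup.normalClosure ({x} : Set G) ⊓ N) inferInstance inf_le_right with h | h
    · exact h
    · exfalso
      apply hle
      rw [← h]
      exact inf_le_left
  exact Subgroup.commute_of_normal_of_disjoint _ N inferInstance inferInstance
    (disjoint_iff.mpr h1) x z (Subgroup.subset_normalClosure (Set.mem_singleton x)) hz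

private theorem one_main (n : ℕ) : ∀ (G : Type) [Group G] [Finite G], Nat.card G = n →
    commutator G = ⊤ → ∃ x : G, Subgroup.normalClosure ({x} : Set G) = ⊤ := by
  induction n using Nat.strong_induction_on with
  | _ n ih =>
    intro G _ _ hn hG
    rcases subsingleton_or_nontrivial G with hs | hs
    · exact ⟨1, Subsingleton.elim _ _⟩
    obtain ⟨N, hN, hne, hmin⟩ := one_min (G := G)
    have hcard : Nat.card (G ⧸ N) < n := by
      have h1 := Subgroup.card_eq_card_quotient_mul_card_subgroup N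
      have h2 : 1 < Nat.card N := by
        rw [Subgroup.one_lt_card_iff_ne_bot]
        exact hne
      have h3 : 0 < Nat.card (G ⧸ N) := Nat.card_pos
      rw [← hn, h1]
      nlinarith
    have hperf : commutator (G ⧸ N) = ⊤ := by
      have h1 : (commutator G).map (QuotientGroup.mk' N) = commutator (G ⧸ N) := by
        rw [commutator_def, commutator_def, Subgroup.map_commutator,
          Subgroup.map_top_of_surjective _ (QuotientGroup.mk'_surjective N)]
      rw [← h1, hG, Subgroup.map_top_of_surjective _ (QuotientGroup.mk'_surjective N)]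
    obtain ⟨xb, hxb⟩ := ih _ hcard (G ⧸ N) rfl hperf
    obtain ⟨x, rfl⟩ := QuotientGroup.mk_surjective xb
    by_cases hA : N ≤ Subgroup.normalClosure ({x} : Set G)
    · exact ⟨x, one_top N x hxb hA⟩
    obtain ⟨⟨y, hy⟩, hy1'⟩ := Subgroup.ne_bot_iff_exists_ne_one.mp hne
    have hy1 : y ≠ 1 := fun h => hy1' (Subtype.ext h)
    have hxy : ((x * y : G) : G ⧸ N) = (x : G ⧸ N) := by
      rw [QuotientGroup.eq]
      rw [mul_inv_rev, inv_mul_cancel_right]
      exact inv_mem hy
    by_cases hB : N ≤ Subgroup.normalClosure ({x * y} : Set G)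
    · exact ⟨x * y, one_top N (x * y) (by rw [hxy]; exact hxb) hB⟩
    exfalso
    have hcy : ∀ z ∈ N, Commute y z := by
      intro z hz
      have h1 := one_comm N x hmin hA z hz
      have h2 := one_comm N (x * y) hmin hB z hz
      have h3 : Commute (x⁻¹ * (x * y)) z := h1.inv_left.mul_left h2
      rwa [inv_mul_cancel_left] at h3
    -- the centre of `N`
    let Z : Subgroup G :=
      { carrier := {z | z ∈ N ∧ ∀ m ∈ N, Commute z m}
        mul_mem' := fun {a b} ha hb => ⟨mul_mem ha.1 hb.1, fun m hm =>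
          (ha.2 m hm).mul_left (hb.2 m hm)⟩
        one_mem' := ⟨one_mem N, fun m _ => Commute.one_left m⟩
        inv_mem' := fun {a} ha => ⟨inv_mem ha.1, fun m hm => (ha.2 m hm).inv_left⟩ }
    have hZn : Z.Normal := by
      refine ⟨fun z hz g => ⟨hN.conj_mem z hz.1 g, fun m hm => ?_⟩⟩
      have h1 : Commute z (g⁻¹ * m * g) := hz.2 _ (by
        have h2 := hN.conj_mem m hm g⁻¹
        rwa [inv_inv] at h2)
      have h3 : z * (g⁻¹ * m * g) = g⁻¹ * m * g * z := h1.eq
      show g * z * g⁻¹ * m = m * (g * z * g⁻¹)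
      calc g * z * g⁻¹ * m = g * (z * (g⁻¹ * m * g)) * g⁻¹ := by group
        _ = g * (g⁻¹ * m * g * z) * g⁻¹ := by rw [h3]
        _ = m * (g * z * g⁻¹) := by group
    have hZ : Z = N := by
      rcases hmin Z hZn (fun z hz => hz.1) with h | h
      · exfalso
        apply hy1
        have h1 : y ∈ Z := ⟨hy, hcy⟩
        rw [h, Subgroup.mem_bot] at h1
        exact h1
      · exact h
    have hab : ∀ a ∈ N, ∀ b ∈ N, Commute a b := by
      intro a ha b hb
      rw [← hZ] at ha
      exact ha.2 b hb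
    apply hA
    have htop : (⊤ : Subgroup G) ≤ Subgroup.normalClosure ({x} : Set G) := by
      rw [← hG, commutator_def, Subgroup.commutator_le]
      intro g₁ _ g₂ _
      obtain ⟨a, ha, m, hm, rfl⟩ := one_gen N x hxb g₁
      obtain ⟨b, hb, l, hl, rfl⟩ := one_gen N x hxb g₂
      rw [← QuotientGroup.eq_one_iff]
      have h1 : ∀ c ∈ Subgroup.normalClosure ({x} : Set G), ∀ k : G,
          ((c * k : G) : G ⧸ Subgroup.normalClosure ({x} : Set G)) = (k : G ⧸ _) := by
        intro c hc k
        rw [QuotientGroup.mk_mul, (QuotientGroup.eq_one_iff c).mpr hc, one_mul]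
      have h2 : ((⁅a * m, b * l⁆ : G) : G ⧸ Subgroup.normalClosure ({x} : Set G)) =
          ⁅((a * m : G) : G ⧸ Subgroup.normalClosure ({x} : Set G)), ((b * l : G) : G ⧸ _)⁆ := rfl
      rw [h2, h1 a ha, h1 b hb]
      have h3 : ⁅((m : G) : G ⧸ Subgroup.normalClosure ({x} : Set G)), ((l : G) : G ⧸ _)⁆ =
          ((⁅m, l⁆ : G) : G ⧸ Subgroup.normalClosure ({x} : Set G)) := rfl
      rw [h3, commutatorElement_eq_one_iff_commute.mpr (hab m hm l hl)]
      rfl
    exact le_top.trans htop

theorem exists_normalClosure_eq_top {G : Type} [Group G] [Finite G] (hG : commutator G = ⊤) :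
    ∃ x : G, Subgroup.normalClosure ({x} : Set G) = ⊤ :=
  one_main _ G rfl hG

end Pool.Agent.H12.RQ
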